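import Mathlib

set_option autoImplicit false

namespace Pool.Agent.H.MP_15e1ec_an

open Set Filter Topology

inductive W : (ℕ → ℝ) → Prop
  | one (n : ℕ) : W (Pi.single n 1)
  | comb (n : ℕ) (g : ℕ → ℕ → ℝ) (hW : ∀ j, j < n → W (g j))
      (hd : ∀ i j, i < n → j < n → i ≠ j → ∀ t, g i t = 0 ∨ g j t = 0)
      (hN : ∀ j, j < n → ∀ t, g j t ≠ 0 → n ≤ t + 1) :
      W fun t => 1 / 2 * ∑ j ∈ Finset.range n, g j t

lemma W.zero : W 0 := by
  have := W.comb 0 0 (by simp) (by simp) (by simp)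
  simp only [Finset.range_zero, Finset.sum_empty, mul_zero] at this
  exact this

lemma lone {n : ℕ} {g : ℕ → ℕ → ℝ} (hd : ∀ i j, i < n → j < n → i ≠ j → ∀ t, g i t = 0 ∨ g j t = 0)
    (t : ℕ) : ∑ j ∈ Finset.range n, g j t = 0 ∨ ∃ i, i < n ∧ ∑ j ∈ Finset.range n, g j t = g i t := by
  by_cases h : ∃ i, i < n ∧ g i t ≠ 0
  · obtain ⟨i, hi, h0⟩ := h
    exact Or.inr ⟨i, hi, Finset.sum_eq_single i (fun j hj hji =>
      (hd j i (Finset.mem_range.1 hj) hi hji t).resolve_right h0)
      fun h => absurd (Finset.mem_range.2 hi) h⟩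
  · push Not at h
    exact Or.inl (Finset.sum_eq_zero fun j hj => h j (Finset.mem_range.1 hj))

lemma W.bd {g : ℕ → ℝ} (h : W g) (t : ℕ) : 0 ≤ g t ∧ g t ≤ 1 := by
  induction h with
  | one n => rw [Pi.single_apply]; split_ifs <;> norm_num
  | comb n g _ hd _ ih =>
    beta_reduce
    rcases lone hd t with h | ⟨i, hi, h⟩
    · rw [h]; norm_num
    · rw [h]
      constructor <;> linarith [(ih i hi).1, (ih i hi).2]

lemma W.res {g : ℕ → ℝ} (h : W g) (E : Finset ℕ) : W fun t => if t ∈ E then g t else 0 := by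
  induction h with
  | one n =>
    by_cases hn : n ∈ E
    · refine (congrArg W (funext fun t => ?_)).mp (W.one n)
      by_cases ht : t = n <;> simp [ht, hn]
    · refine (congrArg W (funext fun t => ?_)).mp W.zero
      by_cases ht : t = n <;> simp [ht, hn]
  | comb n g _ hd hN ih =>
    refine (congrArg W (funext fun t => ?_)).mp (W.comb n (fun j t => if t ∈ E then g j t else 0)
      ih (fun i j hi hj hij t => ?_) fun j hj t ht => hN j hj t fun h => ht (by simp [h]))
    · by_cases ht : t ∈ E <;> simp [ht]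
    · rcases hd i j hi hj hij t with h | h <;> simp [h]

lemma W.ext {g : ℕ → ℝ} (h : W g) {p : ℕ → ℕ} (hp : StrictMono p) : W (Function.extend p g 0) := by
  have k : ∀ t, (∃ i, p i = t) ∨ ∀ u : ℕ → ℝ, Function.extend p u 0 t = 0 := fun t => by
    by_cases h : ∃ i, p i = t
    · exact Or.inl h
    · exact Or.inr fun u => Function.extend_apply' _ _ _ h
  induction h with
  | one n =>
    refine (congrArg W (funext fun t => ?_)).mp (W.one (p n))
    by_cases h : ∃ i, p i = t
    · obtain ⟨i, rfl⟩ := h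
      simp [hp.injective.extend_apply, Pi.single_apply, hp.injective.eq_iff]
    · rw [Function.extend_apply' _ _ _ h, Pi.single_eq_of_ne fun e => h ⟨n, e.symm⟩]
      rfl
  | comb n g _ hd hN ih =>
    refine (congrArg W (funext fun t => ?_)).mp (W.comb n (fun j => Function.extend p (g j) 0)
      ih (fun i j hi hj hij t => ?_) fun j hj t ht => ?_)
    · rcases k t with ⟨i, rfl⟩ | h
      · simp only [hp.injective.extend_apply]
      · simp [h]
    · rcases k t with ⟨l, rfl⟩ | h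
      · simp only [hp.injective.extend_apply]
        exact hd i j hi hj hij l
      · exact Or.inl (h _)
    · rcases k t with ⟨l, rfl⟩ | h
      · rw [hp.injective.extend_apply] at ht
        exact (hN j hj l ht).trans (Nat.succ_le_succ hp.le_apply)
      · exact absurd (h _) ht

variable {X : Type} [NormedAddCommGroup X] [NormedSpace ℝ X]

noncomputable def V (e : ℕ → X) (p : ℕ → ℕ) (a : ℕ → ℝ) (s : Finset ℕ) : X :=
  ∑ i ∈ s, a i • e (p i)

structure Ts (e : ℕ → X) (f : ℕ → X →L[ℝ] ℝ) : Prop where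
  bio : ∀ i j, f i (e j) = if i = j then 1 else 0
  den : Dense (Submodule.span ℝ (range e) : Set X)
  lo : ∀ {p : ℕ → ℕ}, Function.Injective p → ∀ (a : ℕ → ℝ) (s : Finset ℕ) {g : ℕ → ℝ}, W g →
    ∑ i ∈ s, g (p i) * a i ^ 2 ≤ ‖V e p a s‖ ^ 2
  hi : ∀ {p : ℕ → ℕ}, Function.Injective p → ∀ (a : ℕ → ℝ) (s : Finset ℕ) {c : ℝ},
    (∀ g, W g → ∑ i ∈ s, g (p i) * a i ^ 2 ≤ c) → ‖V e p a s‖ ^ 2 ≤ c

abbrev K2 : Type := lp (fun _ : ℕ => ℝ) 2

abbrev Z : Type := lp (fun _ : {g // W g} => K2) ⊤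

noncomputable def dl (k : ℕ) : K2 := lp.single 2 k 1

lemma dl_on : Orthonormal ℝ dl := orthonormal_iff_ite.2 fun i j => by
  rw [dl, lp.inner_single_left, dl, lp.single_apply, Pi.single_apply]
  split_ifs <;> simp

noncomputable def e0 (k : ℕ) : Z :=
  ⟨fun g => √(g.1 k) • dl k, memℓp_infty ⟨1, by
    rintro _ ⟨g, rfl⟩
    simp only [norm_smul, dl_on.1 k, mul_one, Real.norm_eq_abs, abs_of_nonneg (Real.sqrt_nonneg _)]
    exact Real.sqrt_le_one.2 (g.2.bd k).2⟩⟩

lemma V_e0 {p : ℕ → ℕ} (hp : Function.Injective p) (a : ℕ → ℝ) (s : Finset ℕ) (g : {g // W g}) :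
    ‖V e0 p a s g‖ ^ 2 = ∑ i ∈ s, g.1 (p i) * a i ^ 2 := by
  have h1 : V e0 p a s g = ∑ i ∈ s, (a i * √(g.1 (p i))) • (dl ∘ p) i := by
    rw [V, lp.coeFn_sum, Finset.sum_apply]
    exact Finset.sum_congr rfl fun i _ => by rw [mul_smul]; rfl
  rw [h1, ← real_inner_self_eq_norm_sq, (dl_on.comp p hp).inner_sum]
  refine Finset.sum_congr rfl fun i _ => ?_
  rw [conj_trivial, ← sq, mul_pow, Real.sq_sqrt (g.2.bd _).1, mul_comm]

noncomputable def ev (g : {g // W g}) : Z →L[ℝ] K2 :=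
  LinearMap.mkContinuous ⟨⟨fun z => z g, fun _ _ => rfl⟩, fun _ _ => rfl⟩ 1 fun z =>
    (lp.norm_apply_le_norm (by simp) z g).trans_eq (one_mul _).symm

noncomputable def f0 (k : ℕ) : Z →L[ℝ] ℝ := (innerSL ℝ (dl k)).comp (ev ⟨_, W.one k⟩)

noncomputable def Y0 : Submodule ℝ Z := (Submodule.span ℝ (range e0)).topologicalClosure

def Y : Type := ↥Y0

noncomputable instance : NormedAddCommGroup Y := inferInstanceAs (NormedAddCommGroup ↥Y0)

noncomputable instance : NormedSpace ℝ Y := inferInstanceAs (NormedSpace ℝ ↥Y0)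

instance : CompleteSpace Y := (Submodule.isClosed_topologicalClosure _).completeSpace_coe

noncomputable def io : Y →L[ℝ] Z := Y0.subtypeL

noncomputable def eY (k : ℕ) : Y :=
  show ↥Y0 from ⟨e0 k, Submodule.le_topologicalClosure _ (Submodule.subset_span ⟨k, rfl⟩)⟩

lemma nV (p : ℕ → ℕ) (a : ℕ → ℝ) (s : Finset ℕ) : ‖V eY p a s‖ = ‖V e0 p a s‖ := by
  have : io (V eY p a s) = V e0 p a s := by
    simp only [V, map_sum, map_smul]
    rfl
  rw [← this]
  rfl

theorem ts : Ts eY fun k => (f0 k).comp io where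
  bio i j := by
    change inner ℝ (dl i) (√((Pi.single i 1 : ℕ → ℝ) j) • dl j) = _
    rw [real_inner_smul_right, orthonormal_iff_ite.1 dl_on]
    split_ifs with h
    · simp [h]
    · simp
  den x := by
    have h1 : io '' (Submodule.span ℝ (range eY) : Set Y) = Submodule.span ℝ (range e0) := by
      have := Submodule.map_span (io : Y →ₗ[ℝ] Z) (range eY)
      rw [← range_comp] at this
      exact congrArg SetLike.coe this
    have h2 : IsInducing io := IsInducing.subtypeVal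
    rw [h2.closure_eq_preimage_closure_image, h1]
    exact x.2
  lo hp a s g hg := by
    rw [nV, ← V_e0 hp a s ⟨g, hg⟩]
    exact pow_le_pow_left₀ (norm_nonneg _) (lp.norm_apply_le_norm (by simp) _ _) 2
  hi hp a s c hc := by
    have h0 : 0 ≤ c := by simpa using hc 0 W.zero
    rw [nV, ← Real.le_sqrt (norm_nonneg _) h0]
    refine lp.norm_le_of_forall_le (Real.sqrt_nonneg _) fun g => ?_
    rw [Real.le_sqrt (norm_nonneg _) h0, V_e0 hp]
    exact hc _ g.2

end Pool.Agent.H.MP_15e1ec_an
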