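import Pool.Agent.H.MP_15e1ec_an.A

set_option autoImplicit false

namespace Pool.Agent.H.MP_15e1ec_an

open Set Filter Topology

variable {X : Type} [NormedAddCommGroup X] [NormedSpace ℝ X]
variable {e : ℕ → X} {f : ℕ → X →L[ℝ] ℝ}

def Adm (n : ℕ) (E : ℕ → Finset ℕ) : Prop :=
  (∀ i, i < n → ∀ k ∈ E i, n ≤ k + 1) ∧ ∀ i j, i < j → j < n → ∀ k ∈ E i, k ∉ E j

namespace Ts

variable (h : Ts e f)
include h

lemma f_V {p : ℕ → ℕ} (hp : Function.Injective p) (a : ℕ → ℝ) (s : Finset ℕ) (i : ℕ) :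
    f (p i) (V e p a s) = if i ∈ s then a i else 0 := by
  simp [V, map_sum, h.bio, hp.eq_iff]

lemma low {p : ℕ → ℕ} (hp : Function.Injective p) (a : ℕ → ℝ) (s : Finset ℕ) {n : ℕ}
    {E : ℕ → Finset ℕ} (hE : Adm n E) :
    ∑ i ∈ Finset.range n, ‖V e p a (s.filter fun j => p j ∈ E i)‖ ^ 2 ≤ 2 * ‖V e p a s‖ ^ 2 := by
  refine le_of_forall_pos_le_add fun ε hε => ?_
  have hδ : 0 < ε / (n + 1) := by positivity
  have ex : ∀ i, ∃ g, W g ∧ ‖V e p a (s.filter fun j => p j ∈ E i)‖ ^ 2 - ε / (n + 1) <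
      ∑ j ∈ s.filter fun j => p j ∈ E i, g (p j) * a j ^ 2 := fun i => by
    by_contra hc
    push Not at hc
    linarith [h.hi hp a _ hc]
  choose g hg hg' using ex
  have h1 := h.lo hp a s (W.comb n _ (fun j _ => (hg j).res (E j)) (fun i j hi hj hij t => by
    rcases lt_or_gt_of_ne hij with h' | h'
    · by_cases ht : t ∈ E i
      · exact Or.inr (if_neg (hE.2 i j h' hj t ht))
      · exact Or.inl (if_neg ht)
    · by_cases ht : t ∈ E j
      · exact Or.inl (if_neg (hE.2 j i h' hi t ht))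
      · exact Or.inr (if_neg ht)) fun j hj t ht => hE.1 j hj t (by
        by_contra hc
        exact ht (if_neg hc)))
  have h2 := Finset.sum_le_sum fun j (_ : j ∈ Finset.range n) => (hg' j).le
  simp only [Finset.sum_sub_distrib, Finset.sum_const, Finset.card_range, nsmul_eq_mul,
    Finset.sum_filter] at h2
  simp only [mul_assoc, ← Finset.mul_sum, Finset.sum_mul, ite_mul, zero_mul] at h1
  rw [Finset.sum_comm] at h1
  have h3 : n * (ε / (n + 1)) ≤ ε := by
    rw [← mul_div_assoc, div_le_iff₀ (by positivity)]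
    nlinarith
  linarith

lemma up {p : ℕ → ℕ} (hp : Function.Injective p) (a : ℕ → ℝ) (s : Finset ℕ) {c : ℝ} (hc : 0 ≤ c)
    (h1 : ∀ i ∈ s, a i ^ 2 ≤ c) (h2 : ∀ n E, Adm n E →
      ∑ i ∈ Finset.range n, ‖V e p a (s.filter fun j => p j ∈ E i)‖ ^ 2 ≤ 2 * c) :
    ‖V e p a s‖ ^ 2 ≤ c := by
  refine h.hi hp a s fun g hg => ?_
  cases hg with
  | one k =>
    by_cases hk : ∃ i ∈ s, p i = k
    · obtain ⟨i, hi, rfl⟩ := hk
      rw [Finset.sum_eq_single i (fun j _ hji => by
        rw [Pi.single_eq_of_ne fun e => hji (hp e), zero_mul]) fun h' => absurd hi h',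
        Pi.single_eq_same, one_mul]
      exact h1 i hi
    · push Not at hk
      rwa [Finset.sum_eq_zero fun i hi => by rw [Pi.single_eq_of_ne (hk i hi), zero_mul]]
  | comb n g hW hd hN =>
    have h3 := h2 n (fun j => (s.image p).filter fun t => g j t ≠ 0)
      ⟨fun j hj t ht => hN j hj t (Finset.mem_filter.1 ht).2, fun i j hij hj t hi' hj' =>
        (hd i j (hij.trans hj) hj hij.ne t).elim (Finset.mem_filter.1 hi').2
          (Finset.mem_filter.1 hj').2⟩
    simp only [mul_assoc, ← Finset.mul_sum, Finset.sum_mul]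
    rw [Finset.sum_comm]
    have h4 : ∀ j ∈ Finset.range n, ∑ i ∈ s, g j (p i) * a i ^ 2 ≤ ‖V e p a (s.filter fun i =>
        p i ∈ (s.image p).filter fun t => g j t ≠ 0)‖ ^ 2 := fun j hj => by
      refine le_trans (le_of_eq (Finset.sum_subset (Finset.filter_subset _ _)
        fun i hi hi' => ?_).symm) (h.lo hp a _ (hW j (Finset.mem_range.1 hj)))
      by_contra hc
      exact hi' (Finset.mem_filter.2 ⟨hi, Finset.mem_filter.2
        ⟨Finset.mem_image_of_mem p hi, left_ne_zero_of_mul hc⟩⟩)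
    linarith [Finset.sum_le_sum h4]

lemma coef {p : ℕ → ℕ} (hp : Function.Injective p) (a : ℕ → ℝ) {s : Finset ℕ} {i : ℕ}
    (hi : i ∈ s) : a i ^ 2 ≤ ‖V e p a s‖ ^ 2 := by
  have := h.lo hp a s (W.one (p i))
  rwa [Finset.sum_eq_single i (fun j _ hji => by
    rw [Pi.single_eq_of_ne fun e => hji (hp e), zero_mul]) fun h' => absurd hi h',
    Pi.single_eq_same, one_mul] at this

lemma dom2 {p : ℕ → ℕ} (hp : StrictMono p) (a b : ℕ → ℝ) (s t : Finset ℕ) (hst : s ⊆ t) {c : ℝ}
    (hc : 0 ≤ c) (hab : ∀ i ∈ s, a i ^ 2 ≤ c * b i ^ 2) :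
    ‖V e id a s‖ ^ 2 ≤ c * ‖V e p b t‖ ^ 2 := by
  refine h.hi Function.injective_id a s fun g hg => le_trans ?_
    (mul_le_mul_of_nonneg_left (h.lo hp.injective b t (hg.ext hp)) hc)
  simp only [hp.injective.extend_apply, Finset.mul_sum, id]
  refine le_trans (Finset.sum_le_sum fun i hi => ?_) (Finset.sum_le_sum_of_subset_of_nonneg hst
    fun i _ _ => mul_nonneg hc (mul_nonneg (hg.bd i).1 (sq_nonneg _)))
  nlinarith [mul_le_mul_of_nonneg_left (hab i hi) (hg.bd i).1]

lemma dom {p : ℕ → ℕ} (hp : StrictMono p) (a b : ℕ → ℝ) (s t : Finset ℕ) (hst : s ⊆ t)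
    (hab : ∀ i ∈ s, |a i| ≤ |b i|) : ‖V e id a s‖ ≤ ‖V e p b t‖ :=
  le_of_pow_le_pow_left₀ two_ne_zero (norm_nonneg _) ((h.dom2 hp a b s t hst zero_le_one fun i hi => by
    rw [one_mul]
    exact sq_le_sq.2 (hab i hi)).trans_eq (one_mul _))

lemma sub {p : ℕ → ℕ} (hp : Function.Injective p) (a : ℕ → ℝ) (s : Finset ℕ) (P : ℕ → Prop)
    [DecidablePred P] : ‖V e p a s‖ ^ 2 ≤
      ‖V e p a (s.filter P)‖ ^ 2 + ‖V e p a (s.filter fun i => ¬ P i)‖ ^ 2 :=
  h.hi hp a s fun g hg => by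
    rw [← Finset.sum_filter_add_sum_filter_not s P]
    exact add_le_add (h.lo hp a _ hg) (h.lo hp a _ hg)

lemma V_l2 {p : ℕ → ℕ} (hp : Function.Injective p) (a : ℕ → ℝ) (s : Finset ℕ) :
    ‖V e p a s‖ ^ 2 ≤ ∑ i ∈ s, a i ^ 2 :=
  h.hi hp a s fun _ hg => Finset.sum_le_sum fun _ _ =>
    mul_le_of_le_one_left (sq_nonneg _) (hg.bd _).2

omit h in
lemma span_V {x : X} (hx : x ∈ Submodule.span ℝ (range e)) : ∃ a t, x = V e id a t := by
  obtain ⟨c, rfl⟩ := Finsupp.mem_span_range_iff_exists_finsupp.1 hx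
  exact ⟨c, c.support, rfl⟩

lemma supp (x : X) (s : Finset ℕ) : ‖V e id (fun k => f k x) s‖ ≤ ‖x‖ := by
  refine closure_minimal (t := {x | ‖V e id (fun k => f k x) s‖ ≤ ‖x‖}) (fun x hx => ?_)
    (isClosed_le ?_ continuous_norm) (h.den x)
  swap
  · exact (continuous_finsetSum _ fun k _ => (f k).continuous.smul continuous_const).norm
  · obtain ⟨a, t, rfl⟩ := span_V hx
    have h1 := h.f_V Function.injective_id a t
    simp only [id] at h1
    rw [mem_ofPred_eq, show V e id (fun k => f k (V e id a t)) s = V e id a (s.filter (· ∈ t)) by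
      simp only [h1]
      simp only [V, ite_smul, zero_smul, Finset.sum_filter]]
    exact h.dom strictMono_id _ _ _ _ (fun k hk => (Finset.mem_filter.1 hk).2) fun _ _ => le_rfl

lemma tend (x : X) : Tendsto (fun N => ∑ k ∈ Finset.range N, f k x • e k) atTop (𝓝 x) := by
  refine Metric.tendsto_atTop.2 fun ε hε => ?_
  obtain ⟨y, hy, hxy⟩ := h.den.exists_dist_lt x (half_pos hε)
  obtain ⟨a, t, rfl⟩ := span_V hy
  refine ⟨t.sup id + 1, fun N hN => ?_⟩
  have h1 := h.f_V Function.injective_id a t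
  simp only [id] at h1
  have h2 : ∑ k ∈ Finset.range N, f k (V e id a t) • e k = V e id a t := by
    simp only [h1, ite_smul, zero_smul]
    rw [← Finset.sum_filter, Finset.filter_mem_eq_inter, Finset.inter_eq_right.2 fun k hk =>
      Finset.mem_range.2 ((Nat.lt_succ_of_le (Finset.le_sup (f := id) hk)).trans_le hN)]
    rfl
  have h3 := h.supp (x - V e id a t) (Finset.range N)
  simp only [map_sub, sub_smul, id, V, Finset.sum_sub_distrib] at h3 h2 hxy
  rw [h2, ← dist_eq_norm, ← dist_eq_norm] at h3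
  linarith [dist_triangle_right (∑ k ∈ Finset.range N, f k x • e k) x (∑ i ∈ t, a i • e i)]

lemma f_sq (k : ℕ) (x : X) : f k x ^ 2 ≤ ‖x‖ ^ 2 :=
  (h.coef Function.injective_id (fun k => f k x) (Finset.mem_singleton_self k)).trans
    (pow_le_pow_left₀ (norm_nonneg _) (h.supp x _) 2)

lemma f_le (k : ℕ) (x : X) : |f k x| ≤ ‖x‖ := abs_le_of_sq_le_sq (h.f_sq k x) (norm_nonneg _)

lemma e_le (k : ℕ) : ‖e k‖ ≤ 1 := by
  have := h.V_l2 Function.injective_id (fun _ => 1) {k}
  simp only [V, Finset.sum_singleton, one_smul, id] at this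
  exact le_of_pow_le_pow_left₀ two_ne_zero zero_le_one this

lemma e_norm (k : ℕ) : ‖e k‖ = 1 := (h.e_le k).antisymm (by simpa [h.bio] using h.f_le k (e k))

lemma V_l1 (p : ℕ → ℕ) (a : ℕ → ℝ) (s : Finset ℕ) : ‖V e p a s‖ ≤ ∑ i ∈ s, |a i| :=
  (norm_sum_le _ _).trans (Finset.sum_le_sum fun i _ => by
    rw [norm_smul, Real.norm_eq_abs]
    exact mul_le_of_le_one_right (abs_nonneg _) (h.e_le _))

end Ts

def L (f : ℕ → X →L[ℝ] ℝ) (θ : ℕ → ℕ) : Prop :=
  ∃ C : ℝ, 0 ≤ C ∧ ∀ k x, ∑ n ∈ Finset.Ico k (θ k), f n x ^ 2 ≤ C * ‖x‖ ^ 2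

lemma L.mono {θ θ' : ℕ → ℕ} (h : L f θ) (h' : ∀ k, θ' k ≤ θ k) : L f θ' := by
  obtain ⟨C, h0, hC⟩ := h
  exact ⟨C, h0, fun k x => (Finset.sum_le_sum_of_subset_of_nonneg
    (Finset.Ico_subset_Ico_right (h' k)) fun _ _ _ => sq_nonneg _).trans (hC k x)⟩

lemma L.comp {θ θ' : ℕ → ℕ} (h : L f θ) (h' : L f θ') : L f fun k => θ (θ' k) := by
  obtain ⟨C, h0, hC⟩ := h
  obtain ⟨C', h0', hC'⟩ := h'
  refine ⟨C + C', by positivity, fun k x => ?_⟩
  have h1 : Finset.Ico k (θ (θ' k)) ⊆ Finset.Ico k (θ' k) ∪ Finset.Ico (θ' k) (θ (θ' k)) :=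
    fun n hn => by
      simp only [Finset.mem_union, Finset.mem_Ico] at hn ⊢
      omega
  have h2 := Finset.sum_le_sum_of_subset_of_nonneg (f := fun n => f n x ^ 2) h1
    fun _ _ _ => sq_nonneg _
  rw [Finset.sum_union (Finset.Ico_disjoint_Ico_consecutive _ _ _)] at h2
  linarith [hC (θ' k) x, hC' k x]

lemma Ts.L_add (h : Ts e f) (c : ℕ) : L f fun k => k + c :=
  ⟨c, by positivity, fun k x => by
    have := Finset.sum_le_card_nsmul (Finset.Ico k (k + c)) (fun n => f n x ^ 2) (‖x‖ ^ 2)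
      fun n _ => h.f_sq n x
    simpa using this⟩

lemma Ts.iter (h : Ts e f) {θ : ℕ → ℕ} (hθ : ∀ k, k ≤ θ k) {C : ℝ} (h0 : 0 ≤ C)
    (hC : ∀ k x, ∑ n ∈ Finset.Ico k (θ k), f n x ^ 2 ≤ C * ‖x‖ ^ 2) (k : ℕ) (x : X) :
    ∑ n ∈ Finset.Ico k (θ^[k + 1] k), f n x ^ 2 ≤ 2 * C * ‖x‖ ^ 2 := by
  have hm : Monotone fun j => θ^[j] k := monotone_nat_of_le_succ fun j => by
    rw [Function.iterate_succ_apply']
    exact hθ _
  have h1 : ∀ m, ∑ n ∈ Finset.Ico k (θ^[m] k), f n x ^ 2 =
      ∑ j ∈ Finset.range m, ∑ n ∈ Finset.Ico (θ^[j] k) (θ^[j + 1] k), f n x ^ 2 := fun m => by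
    induction m with
    | zero => simp
    | succ m ih =>
      rw [Finset.sum_range_succ, ← ih]
      exact (Finset.sum_Ico_consecutive _ (hm (Nat.zero_le m)) (hm (Nat.le_succ m))).symm
  set s := Finset.range (θ^[k + 1] k) with hs
  have h2 := h.low Function.injective_id (fun n => f n x) s (n := k + 1)
    (E := fun j => Finset.Ico (θ^[j] k) (θ^[j + 1] k)) ⟨fun j _ n hn =>
      Nat.succ_le_succ ((hm (Nat.zero_le j)).trans (Finset.mem_Ico.1 hn).1),
      fun i j hij _ n hn hl => lt_irrefl _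
        ((Finset.mem_Ico.1 hn).2.trans_le ((hm hij).trans (Finset.mem_Ico.1 hl).1))⟩
  rw [h1]
  calc _ ≤ ∑ j ∈ Finset.range (k + 1), C * ‖V e id (fun n => f n x)
        (s.filter fun n => id n ∈ Finset.Ico (θ^[j] k) (θ^[j + 1] k))‖ ^ 2 :=
        Finset.sum_le_sum fun j hj => by
          refine le_trans (le_of_eq (Finset.sum_congr ?_ fun n hn => ?_)) (hC (θ^[j] k) _)
          · rw [Function.iterate_succ_apply']
          · have := h.f_V Function.injective_id (fun n => f n x)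
              (s.filter fun n => id n ∈ Finset.Ico (θ^[j] k) (θ^[j + 1] k)) n
            rw [← Function.iterate_succ_apply' θ] at hn
            rw [if_pos (show n ∈ s.filter (fun n => id n ∈ Finset.Ico (θ^[j] k) (θ^[j + 1] k)) from
              Finset.mem_filter.2 ⟨Finset.mem_range.2 ((Finset.mem_Ico.1 hn).2.trans_le
              (hm (Finset.mem_range.1 hj))), hn⟩)] at this
            exact congrArg (· ^ 2) this.symm
    _ ≤ C * (2 * ‖x‖ ^ 2) := by
        rw [← Finset.mul_sum]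
        exact mul_le_mul_of_nonneg_left (h2.trans (by
          linarith [pow_le_pow_left₀ (norm_nonneg _) (h.supp x s) 2])) h0
    _ = _ := by ring

lemma Ts.win (h : Ts e f) (k : ℕ) (x : X) :
    ∑ n ∈ Finset.Ico k (2 * k + 1), f n x ^ 2 ≤ 2 * ‖x‖ ^ 2 := by
  have := h.iter (θ := fun k => k + 1) (fun k => Nat.le_succ k) zero_le_one
    (fun k x => by simpa using h.f_sq k x) k x
  have e1 : ∀ j, (fun k => k + 1)^[j] k = k + j := fun j => by
    induction j with
    | zero => rfl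
    | succ j ih => rw [Function.iterate_succ_apply', ih, add_assoc]
  rwa [e1, mul_one, show k + (k + 1) = 2 * k + 1 by ring] at this

lemma Ts.L_two (h : Ts e f) : L f fun k => 2 * k + 1 := ⟨2, zero_le_two, h.win⟩

lemma Ts.L_pow (h : Ts e f) : L f fun k => 2 ^ k := by
  refine L.mono ⟨2 * 2, by norm_num, h.iter (θ := fun k => 2 * k + 1) (fun k => by omega)
    zero_le_two h.win⟩ fun k => ?_
  have : ∀ j, (fun k => 2 * k + 1)^[j] k + 1 = 2 ^ j * (k + 1) := fun j => by
    induction j with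
    | zero => simp
    | succ j ih => rw [Function.iterate_succ_apply', pow_succ]; linarith
  have h1 := this (k + 1)
  have h2 : 1 ≤ 2 ^ k := Nat.one_le_two_pow
  rw [pow_succ] at h1
  nlinarith

lemma sum_two (g : ℕ → ℝ) (m : ℕ) :
    ∑ t ∈ Finset.range (2 * m), g t = ∑ l ∈ Finset.range m, (g (2 * l) + g (2 * l + 1)) := by
  induction m with
  | zero => simp
  | succ m ih => rw [mul_add, mul_one, Finset.sum_range_succ, Finset.sum_range_succ, ih,
      Finset.sum_range_succ, add_assoc]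

theorem Ts.spread (h : Ts e f) {p : ℕ → ℕ} (hp : StrictMono p) (hL : L f fun k => 2 * p k + 2) :
    ∃ C : ℝ, 0 ≤ C ∧ ∀ a s, ‖V e p a s‖ ^ 2 ≤ C * ‖V e id a s‖ ^ 2 := by
  obtain ⟨C, h0, hC⟩ := hL
  have l1 : ∀ (a : ℕ → ℝ) (s : Finset ℕ) (k : ℕ),
      ∑ i ∈ s.filter fun i => i ∈ Finset.Ico k (2 * p k + 2), a i ^ 2 ≤
        C * ‖V e id a (s.filter fun i => i ∈ Finset.Ico k (2 * p k + 2))‖ ^ 2 := fun a s k => by
    refine le_trans ?_ (hC k _)
    refine le_trans (le_of_eq (Finset.sum_congr rfl fun i hi => ?_))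
      (Finset.sum_le_sum_of_subset_of_nonneg (fun i hi => (Finset.mem_filter.1 hi).2)
        fun _ _ _ => sq_nonneg _)
    have := h.f_V Function.injective_id a (s.filter fun i => i ∈ Finset.Ico k (2 * p k + 2)) i
    rw [if_pos hi] at this
    exact congrArg (· ^ 2) this.symm
  have key : ∀ (a : ℕ → ℝ) (s : Finset ℕ), ∃ k, ‖V e p a s‖ ^ 2 ≤
      ∑ i ∈ s.filter fun i => i ∈ Finset.Ico k (2 * p k + 2), a i ^ 2 +
        C * ‖V e id a (s.filter fun i => 2 * p k + 2 ≤ i)‖ ^ 2 := by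
    intro a s
    induction s using Finset.strongInduction with
    | H s ih =>
      rcases s.eq_empty_or_nonempty with rfl | hne
      · exact ⟨0, by simp [V]⟩
      set B : ℕ → ℝ := fun k => ∑ i ∈ s.filter fun i => i ∈ Finset.Ico k (2 * p k + 2), a i ^ 2 +
        C * ‖V e id a (s.filter fun i => 2 * p k + 2 ≤ i)‖ ^ 2 with hB
      have hB0 : ∀ k, 0 ≤ B k := fun k => by positivity
      obtain ⟨k0, -, hk0⟩ := Finset.exists_max_image s B hne
      refine ⟨k0, h.up hp.injective a s (hB0 k0) (fun i hi => le_trans ?_ (hk0 i hi))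
        fun n E hE => ?_⟩
      · refine le_add_of_le_of_nonneg (Finset.single_le_sum (f := fun i => a i ^ 2)
          (fun _ _ => sq_nonneg _) (Finset.mem_filter.2 ⟨hi, Finset.mem_Ico.2 ⟨le_rfl, ?_⟩⟩))
          (by positivity)
        have := hp.le_apply (x := i)
        omega
      by_cases hx : ∃ k, k ∈ s ∧ ∃ l, l < n ∧ p k ∈ E l
      swap
      · push Not at hx
        rw [Finset.sum_eq_zero fun l hl => by
          rw [Finset.filter_false_of_mem fun i hi => hx i hi l (Finset.mem_range.1 hl), V,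
            Finset.sum_empty, norm_zero, zero_pow two_ne_zero]]
        linarith [hB0 k0]
      classical
      obtain ⟨hks, l0, hl0, hkE⟩ := Nat.find_spec hx
      have hmin := fun i => Nat.find_min' hx (m := i)
      set k := Nat.find hx with hk
      have hn : n ≤ p k + 1 := hE.1 l0 hl0 _ hkE
      have hkθ : k < 2 * p k + 2 := by
        have := hp.le_apply (x := k)
        omega
      set s' : ℕ → Finset ℕ := fun l => (s.filter fun j => p j ∈ E l).filter
        fun i => 2 * p k + 2 ≤ i with hs'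
      have hss : ∀ l, s' l ⊂ s := fun l => Finset.ssubset_iff_subset_ne.2
        ⟨(Finset.filter_subset _ _).trans (Finset.filter_subset _ _), fun e => by
          have := (Finset.mem_filter.1 (show k ∈ s' l from e.symm ▸ hks)).2
          omega⟩
      choose κ hκ using fun l => ih _ (hss l)
      set F : ℕ → Finset ℕ := fun t => if t % 2 = 0 then
        (s' (t / 2)).filter fun i => i ∈ Finset.Ico (κ (t / 2)) (2 * p (κ (t / 2)) + 2)
        else (s' (t / 2)).filter fun i => 2 * p (κ (t / 2)) + 2 ≤ i with hF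
      have hF1 : ∀ t, F t ⊆ s' (t / 2) := fun t => by
        simp only [hF]
        split_ifs <;> exact Finset.filter_subset _ _
      have hA : Adm (2 * n) F := by
        refine ⟨fun t _ i hi => ?_, fun t u htu hu i hi hj => ?_⟩
        · have := (Finset.mem_filter.1 (hF1 t hi)).2
          omega
        · rcases (Nat.div_le_div_right (c := 2) htu.le).lt_or_eq with h' | h'
          · exact hE.2 _ _ h' (by omega) _
              (Finset.mem_filter.1 (Finset.mem_filter.1 (hF1 t hi)).1).2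
              (Finset.mem_filter.1 (Finset.mem_filter.1 (hF1 u hj)).1).2
          · simp only [hF] at hi hj
            rw [if_pos (by omega)] at hi
            rw [if_neg (by omega), ← h'] at hj
            have := (Finset.mem_Ico.1 (Finset.mem_filter.1 hi).2).2
            have := (Finset.mem_filter.1 hj).2
            omega
      have a1 := h.low Function.injective_id a (s.filter fun i => 2 * p k + 2 ≤ i) hA
      rw [Finset.sum_congr rfl (g := fun t => ‖V e id a (F t)‖ ^ 2) fun t _ => by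
        congr 3
        ext i
        simp only [Finset.mem_filter, id]
        refine ⟨fun h' => h'.2, fun h' => ⟨?_, h'⟩⟩
        have := Finset.mem_filter.1 (hF1 t h')
        exact ⟨(Finset.mem_filter.1 this.1).1, this.2⟩, sum_two] at a1
      have a2 : ∀ l ∈ Finset.range n, ‖V e p a (s.filter fun j => p j ∈ E l)‖ ^ 2 ≤
          ∑ i ∈ (s.filter fun j => p j ∈ E l).filter (fun i => ¬ 2 * p k + 2 ≤ i), a i ^ 2 +
          C * (‖V e id a (F (2 * l))‖ ^ 2 + ‖V e id a (F (2 * l + 1))‖ ^ 2) := fun l _ => by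
        have b1 := hκ l
        have b2 := l1 a (s' l) (κ l)
        have b4 := h.sub hp.injective a (s.filter fun j => p j ∈ E l) fun i => 2 * p k + 2 ≤ i
        have b5 := h.V_l2 hp.injective a
          ((s.filter fun j => p j ∈ E l).filter fun i => ¬ 2 * p k + 2 ≤ i)
        simp only [hF, Nat.mul_mod_right, if_true, Nat.mul_div_cancel_left l two_pos,
          show (2 * l + 1) % 2 ≠ 0 by omega, if_false, show (2 * l + 1) / 2 = l by omega]
        linarith
      have a3 : ∑ l ∈ Finset.range n,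
          ∑ i ∈ (s.filter fun j => p j ∈ E l).filter (fun i => ¬ 2 * p k + 2 ≤ i), a i ^ 2 ≤
          ∑ i ∈ s.filter fun i => i ∈ Finset.Ico k (2 * p k + 2), a i ^ 2 := by
        rw [← Finset.sum_biUnion]
        · refine Finset.sum_le_sum_of_subset_of_nonneg (fun i hi => ?_) fun _ _ _ => sq_nonneg _
          obtain ⟨l, hl, hi⟩ := Finset.mem_biUnion.1 hi
          simp only [Finset.mem_filter, Finset.mem_Ico] at hi ⊢
          exact ⟨hi.1.1, hmin i ⟨hi.1.1, l, Finset.mem_range.1 hl, hi.1.2⟩, by omega⟩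
        · intro l hl l' hl' hll
          refine Finset.disjoint_left.2 fun i hi hi' => ?_
          simp only [Finset.mem_filter] at hi hi'
          rcases lt_or_gt_of_ne hll with h' | h'
          · exact hE.2 _ _ h' (Finset.mem_range.1 hl') _ hi.1.2 hi'.1.2
          · exact hE.2 _ _ h' (Finset.mem_range.1 hl) _ hi'.1.2 hi.1.2
      have a4 := Finset.sum_le_sum a2
      rw [Finset.sum_add_distrib, ← Finset.mul_sum] at a4
      have a5 := mul_le_mul_of_nonneg_left a1 h0
      have a6 := hk0 k hks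
      have a7 : 0 ≤ ∑ i ∈ s.filter fun i => i ∈ Finset.Ico k (2 * p k + 2), a i ^ 2 := by positivity
      simp only [hB] at a6 ⊢
      linarith
  refine ⟨2 * C, by positivity, fun a s => ?_⟩
  obtain ⟨k, hk⟩ := key a s
  have a1 := mul_le_mul_of_nonneg_left (pow_le_pow_left₀ (norm_nonneg _) (h.dom strictMono_id a a _ s
    (Finset.filter_subset (fun i => i ∈ Finset.Ico k (2 * p k + 2)) s) fun _ _ => le_rfl) 2) h0
  have a2 := mul_le_mul_of_nonneg_left (pow_le_pow_left₀ (norm_nonneg _) (h.dom strictMono_id a a _ s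
    (Finset.filter_subset (fun i => 2 * p k + 2 ≤ i) s) fun _ _ => le_rfl) 2) h0
  linarith [l1 a s k]

end Pool.Agent.H.MP_15e1ec_an
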