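import Pool.Agent.H.MP_15e1ec_an.B

set_option autoImplicit false

namespace Pool.Agent.H.MP_15e1ec_an

open Set Filter Topology

variable {X : Type} [NormedAddCommGroup X] [NormedSpace ℝ X]
variable {e : ℕ → X} {f : ℕ → X →L[ℝ] ℝ}

noncomputable def rq {α : Type} (F : (i : ℕ) → (Fin i → α) → α) (i : ℕ) : α :=
  F i fun j => rq F j
termination_by i
decreasing_by exact j.2

lemma rq_eq {α : Type} (F : (i : ℕ) → (Fin i → α) → α) (i : ℕ) :
    rq F i = F i fun j => rq F j := by rw [rq]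

lemma Ts.lim_op [CompleteSpace X] (h : Ts e f) (T : ℕ → X →L[ℝ] X) {C : ℝ} (h0 : 0 ≤ C)
    (hC : ∀ N x, ‖T N x‖ ≤ C * ‖x‖) (hT : ∀ j, ∃ y, ∀ᶠ N in atTop, T N (e j) = y) :
    ∃ S : X →L[ℝ] X, ∀ x, Tendsto (fun N => T N x) atTop (𝓝 (S x)) := by
  choose y hy using hT
  have hc : ∀ x, CauchySeq fun N => T N x := fun x => by
    refine Metric.cauchySeq_iff.2 fun ε hε => ?_
    obtain ⟨m, hm⟩ := ((h.tend x).eventually
      (Metric.ball_mem_nhds x (show 0 < ε / (3 * (C + 1)) by positivity))).exists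
    set u := ∑ k ∈ Finset.range m, f k x • e k with hu
    have h1 : Tendsto (fun N => T N u) atTop (𝓝 (∑ k ∈ Finset.range m, f k x • y k)) := by
      simp only [hu, map_sum, map_smul]
      exact tendsto_finsetSum _ fun k _ =>
        (tendsto_const_nhds.congr' ((hy k).mono fun N hN => hN.symm)).const_smul _
    obtain ⟨M, hM⟩ := Metric.cauchySeq_iff.1 h1.cauchySeq (ε / 3) (by positivity)
    refine ⟨M, fun a ha b hb => ?_⟩
    have h2 := hM a ha b hb
    have h3 : C * ‖u - x‖ ≤ ε / 3 := by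
      rw [dist_eq_norm, lt_div_iff₀ (by positivity)] at hm
      nlinarith [norm_nonneg (u - x)]
    have h4 := hC a (u - x)
    have h5 := hC b (u - x)
    rw [map_sub, ← dist_eq_norm] at h4 h5
    linarith [dist_triangle4 (T a x) (T a u) (T b u) (T b x), dist_comm (T a x) (T a u)]
  choose g hg using fun x => cauchySeq_tendsto_of_complete (hc x)
  exact ⟨continuousLinearMapOfTendsto T (tendsto_pi_nhds.2 hg), hg⟩

lemma Ts.row (h : Ts e f) (φ : X →L[ℝ] ℝ) {c : ℝ} (hφ : ∀ x, |φ x| ≤ c * ‖x‖) (s : Finset ℕ) :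
    ∑ n ∈ s, φ (e n) ^ 2 ≤ c ^ 2 := by
  have h1 := h.V_l2 Function.injective_id (fun n => φ (e n)) s
  have h2 := pow_le_pow_left₀ (abs_nonneg _) (hφ (V e id (fun n => φ (e n)) s)) 2
  rw [sq_abs, mul_pow, show φ (V e id (fun n => φ (e n)) s) = ∑ n ∈ s, φ (e n) ^ 2 by
    simp [V, sq]] at h2
  have h3 : 0 ≤ ∑ n ∈ s, φ (e n) ^ 2 := by positivity
  rcases h3.eq_or_lt with h4 | h4
  · rw [← h4]
    positivity
  · nlinarith [mul_le_mul_of_nonneg_left h1 (sq_nonneg c)]

lemma Ts.step (h : Ts e f) (A : X →L[ℝ] X) {η : ℝ} (hη : 0 < η) (i N : ℕ) (h0 : 0 < N)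
    (hN : i * (3 * ‖A‖ ^ 2) ≤ N * η ^ 2) (P : Fin i → ℕ) :
    ∃ n ∈ Finset.Ico N (2 * N), ∀ j, |f n (A (e (P j)))| ≤ η ∧ |f (P j) (A (e n))| ≤ η := by
  have hA : ∀ n, ‖A (e n)‖ ≤ ‖A‖ := fun n =>
    (A.le_opNorm _).trans (mul_le_of_le_one_right (norm_nonneg _) (h.e_le n))
  obtain ⟨n, hn, h1⟩ := Finset.exists_le_of_sum_le (s := Finset.Ico N (2 * N))
    (f := fun n => ∑ j, (f n (A (e (P j))) ^ 2 + f (P j) (A (e n)) ^ 2)) (g := fun _ => η ^ 2)
    ⟨N, Finset.mem_Ico.2 ⟨le_rfl, by omega⟩⟩ (by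
      rw [Finset.sum_comm, Finset.sum_const, Nat.card_Ico, show 2 * N - N = N by omega,
        nsmul_eq_mul]
      refine le_trans ((Finset.sum_le_card_nsmul _ _ (3 * ‖A‖ ^ 2) fun j _ => ?_).trans_eq
        (by simp)) hN
      have a1 := (Finset.sum_le_sum_of_subset_of_nonneg (f := fun n => f n (A (e (P j))) ^ 2)
        (Finset.Ico_subset_Ico_right (Nat.le_succ (2 * N)) (a := N))
        fun _ _ _ => sq_nonneg _).trans (h.win N _)
      have a2 := h.row ((f (P j)).comp A) (c := ‖A‖)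
        (fun x => (h.f_le _ _).trans (A.le_opNorm x)) (Finset.Ico N (2 * N))
      have a3 := pow_le_pow_left₀ (norm_nonneg _) (hA (P j)) 2
      simp only [ContinuousLinearMap.comp_apply] at a2
      rw [Finset.sum_add_distrib]
      linarith)
  refine ⟨n, hn, fun j => ?_⟩
  have := (Finset.single_le_sum (f := fun j => f n (A (e (P j))) ^ 2 + f (P j) (A (e n)) ^ 2)
    (fun _ _ => by positivity) (Finset.mem_univ j)).trans h1
  exact ⟨abs_le_of_sq_le_sq (by nlinarith [sq_nonneg (f (P j) (A (e n)))]) hη.le,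
    abs_le_of_sq_le_sq (by nlinarith [sq_nonneg (f n (A (e (P j))))]) hη.le⟩

lemma Ts.L_NN (h : Ts e f) (a : ℕ) : L f fun k => 4 * 2 ^ (5 * k + a) + 2 := by
  refine (h.L_pow.comp (h.L_two.comp (h.L_two.comp (h.L_two.comp (h.L_add (a + 3)))))).mono
    fun k => ?_
  refine le_trans ?_ (Nat.pow_le_pow_right two_pos (show 5 * k + a + 3 ≤ _ by omega))
  have : 1 ≤ 2 ^ (5 * k + a) := Nat.one_le_two_pow
  rw [pow_add _ _ 3]
  omega

theorem Ts.main [CompleteSpace X] (h : Ts e f) (A : X →L[ℝ] X) {δ : ℝ} (hδ : 0 < δ)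
    (hA : ∀ k, δ ≤ |f k (A (e k))|) :
    ∃ R S : X →L[ℝ] X, S ∘L A ∘L R = ContinuousLinearMap.id ℝ X := by
  obtain ⟨a, ha⟩ := pow_unbounded_of_one_lt (768 * ‖A‖ ^ 2 / δ ^ 2) (one_lt_two (α := ℝ))
  rw [div_lt_iff₀ (by positivity)] at ha
  choose F hF hF' using fun i => h.step A (η := δ / (16 * 4 ^ i)) (by positivity) i
    (2 ^ (5 * i + a)) (by positivity) (by
      have h1 : (i : ℝ) ≤ 2 ^ i := by exact_mod_cast Nat.lt_two_pow_self.le
      push_cast
      rw [show (2 : ℝ) ^ (5 * i + a) * (δ / (16 * 4 ^ i)) ^ 2 = 2 ^ i * (2 ^ a * δ ^ 2 / 256) by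
        rw [pow_add, pow_mul', show (4 : ℝ) ^ i = (2 ^ i) ^ 2 by rw [← pow_mul, pow_mul']; norm_num]
        field_simp
        norm_num]
      exact mul_le_mul h1 (by linarith) (by positivity) (by positivity))
  have hP := fun i => hF i fun j => rq F j
  have hP' := fun i => hF' i fun j => rq F j
  simp only [← rq_eq] at hP hP'
  set p : ℕ → ℕ := rq F with hp
  have hm : StrictMono p := strictMono_nat_of_lt_succ fun i =>
    (Finset.mem_Ico.1 (hP i)).2.trans_le (le_trans (by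
      rw [← pow_succ']
      exact Nat.pow_le_pow_right two_pos (by omega)) (Finset.mem_Ico.1 (hP (i + 1))).1)
  obtain ⟨C0, hC0, hC1⟩ := h.spread hm ((h.L_NN a).mono fun k => by
    have := (Finset.mem_Ico.1 (hP k)).2
    omega)
  have hC : ∀ x N, ‖V e p (fun i => f i x) (Finset.range N)‖ ≤ √C0 * ‖x‖ := fun x N => by
    refine le_of_sq_le_sq ((hC1 _ _).trans ?_) (by positivity)
    rw [mul_pow, Real.sq_sqrt hC0]
    exact mul_le_mul_of_nonneg_left (pow_le_pow_left₀ (norm_nonneg _) (h.supp x _) 2) hC0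
  set x : ℕ → X := fun i => e (p i) with hx
  set d : ℕ → ℝ := fun i => f (p i) (A (x i)) with hd
  have d1 : ∀ i, δ / 2 ≤ |d i| := fun i => (half_le_self hδ.le).trans (hA (p i))
  have d0 : ∀ i, d i ≠ 0 := fun i => abs_pos.1 ((half_pos hδ).trans_le (d1 i))
  have off : ∀ i j, |f (p i) (A (x j)) / d i - if i = j then 1 else 0| ≤
      1 / 8 * (1 / 2) ^ j * (1 / 2) ^ i := fun i j => by
    have key : ∀ m, i ≤ m → j ≤ m → |f (p i) (A (x j))| ≤ δ / (16 * 4 ^ m) →
        |f (p i) (A (x j)) / d i - 0| ≤ 1 / 8 * (1 / 2) ^ j * (1 / 2) ^ i := fun m hi hj hm => by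
      have h1 : (1 / 2 : ℝ) ^ m ≤ (1 / 2) ^ i := pow_le_pow_of_le_one (by norm_num) (by norm_num) hi
      have h2 : (1 / 2 : ℝ) ^ m ≤ (1 / 2) ^ j := pow_le_pow_of_le_one (by norm_num) (by norm_num) hj
      rw [sub_zero, abs_div, div_le_iff₀ (abs_pos.2 (d0 i))]
      calc _ ≤ δ / (16 * 4 ^ m) := hm
        _ = 1 / 8 * (1 / 2) ^ m * (1 / 2) ^ m * (δ / 2) := by
          rw [show (4 : ℝ) ^ m = 2 ^ m * 2 ^ m by rw [← mul_pow]; norm_num, one_div_pow]
          field_simp
          norm_num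
        _ ≤ _ := by gcongr; exact d1 i
    rcases lt_trichotomy i j with h' | rfl | h'
    · rw [if_neg h'.ne]
      exact key j h'.le le_rfl (hP' j ⟨i, h'⟩).2
    · rw [if_pos rfl, div_self (d0 i), sub_self, abs_zero]
      positivity
    · rw [if_neg h'.ne']
      exact key i le_rfl h'.le (hP' i ⟨j, h'⟩).1
  obtain ⟨R, hR⟩ := h.lim_op (fun N => ∑ i ∈ Finset.range N, (f i).smulRight (x i))
    (Real.sqrt_nonneg C0) (fun N y => by
      rw [show (∑ i ∈ Finset.range N, (f i).smulRight (x i)) y =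
        V e p (fun i => f i y) (Finset.range N) by simp [V, hx]]
      exact hC y N) fun j => ⟨x j, (eventually_gt_atTop j).mono fun N hN => by
        simp [h.bio, hN]⟩
  have hRe : ∀ j, R (e j) = x j := fun j => tendsto_nhds_unique (hR _)
    (tendsto_const_nhds.congr' ((eventually_gt_atTop j).mono fun N hN => by simp [h.bio, hN]))
  have hS0 : ∀ N y, (∑ i ∈ Finset.range N, ((d i)⁻¹ • f (p i)).smulRight (e i)) y =
      V e id (fun i => f (p i) y / d i) (Finset.range N) := fun N y => by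
    simp [V, div_eq_inv_mul]
  obtain ⟨S, hS⟩ := h.lim_op
    (fun N => ∑ i ∈ Finset.range N, ((d i)⁻¹ • f (p i)).smulRight (e i))
    (C := 2 / δ) (by positivity) (fun N y => by
      rw [hS0]
      refine (h.dom hm _ (fun i => f (p i) ((2 / δ) • y)) _ _ subset_rfl fun i _ => ?_).trans ?_
      · rw [abs_div, map_smul, smul_eq_mul, abs_mul, div_le_iff₀ (abs_pos.2 (d0 i)),
          abs_of_pos (by positivity : 0 < 2 / δ)]
        calc _ = 2 / δ * |f (p i) y| * (δ / 2) := by field_simp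
          _ ≤ _ := by gcongr; exact d1 i
      · have := h.supp ((2 / δ) • y) ((Finset.range N).image p)
        rwa [V, Finset.sum_image fun _ _ _ _ e => hm.injective e, norm_smul,
          Real.norm_of_nonneg (by positivity)] at this) fun j => by
      by_cases hj : ∃ i, p i = j
      · obtain ⟨i, rfl⟩ := hj
        exact ⟨(d i)⁻¹ • e i, (eventually_gt_atTop i).mono fun N hN => by
          simp [h.bio, hm.injective.eq_iff, hN]⟩
      · push Not at hj
        exact ⟨0, Eventually.of_forall fun N => by simp [h.bio, hj]⟩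
  have b1 : ∀ j, ‖(1 - S ∘L A ∘L R) (e j)‖ ≤ 1 / 4 * (1 / 2) ^ j := fun j => by
    have := ((hS (A (x j))).const_sub (e j)).norm
    rw [show (1 - S ∘L A ∘L R) (e j) = e j - S (A (x j)) by simp [hRe]]
    refine le_of_tendsto this ((eventually_gt_atTop j).mono fun N hN => ?_)
    rw [hS0, norm_sub_rev, show V e id (fun i => f (p i) (A (x j)) / d i) (Finset.range N) - e j =
      V e id (fun i => f (p i) (A (x j)) / d i - if i = j then 1 else 0) (Finset.range N) by
        simp [V, sub_smul, hN]]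
    refine (h.V_l1 _ _ _).trans ((Finset.sum_le_sum fun i _ => off i j).trans ?_)
    rw [← Finset.mul_sum]
    nlinarith [sum_geometric_two_le N, (by positivity : (0 : ℝ) < (1 / 2) ^ j)]
  have b2 : ‖1 - S ∘L A ∘L R‖ < 1 := by
    refine lt_of_le_of_lt (ContinuousLinearMap.opNorm_le_bound _ (M := 1 / 2) (by norm_num)
      fun y => ?_) (by norm_num)
    refine le_of_tendsto' (((1 - S ∘L A ∘L R).continuous.tendsto y).comp (h.tend y)).norm
      fun N => ?_
    simp only [Function.comp, map_sum, map_smul]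
    refine (norm_sum_le _ _).trans ((Finset.sum_le_sum (g := fun j => ‖y‖ / 4 * (1 / 2) ^ j)
      fun j _ => ?_).trans ?_)
    · rw [norm_smul, Real.norm_eq_abs]
      calc _ ≤ ‖y‖ * (1 / 4 * (1 / 2) ^ j) :=
            mul_le_mul (h.f_le j y) (b1 j) (norm_nonneg _) (norm_nonneg _)
        _ = _ := by ring
    · rw [← Finset.mul_sum]
      nlinarith [sum_geometric_two_le N, norm_nonneg y]
  refine ⟨R, ((Units.oneSub _ b2)⁻¹ : (X →L[ℝ] X)ˣ) ∘L S, ?_⟩
  have := (Units.oneSub _ b2).inv_mul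
  rwa [Units.val_oneSub, sub_sub_cancel] at this

end Pool.Agent.H.MP_15e1ec_an
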