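import Pool.Agent.H.MP_15e1ec_an.C

set_option autoImplicit false

namespace Pool.Agent.H.MP_15e1ec_an

open Set Filter Topology

variable {X : Type} [NormedAddCommGroup X] [NormedSpace ℝ X]
variable {e : ℕ → X} {f : ℕ → X →L[ℝ] ℝ}

def Q (c : ℝ) : Prop := ∀ ε : ℝ, 0 < ε → ∀ N : ℕ, ∃ (M : ℕ) (μ : ℕ → ℝ), N ≤ M ∧ (∀ t, 0 ≤ μ t) ∧
  ∑ t ∈ Finset.Ico N M, μ t = 1 ∧
  ∀ g, W g → ∑ t ∈ Finset.Ico N M, max (g t - c) 0 * μ t ≤ ε

lemma Q_one : Q 1 := fun ε hε N => ⟨N + 1, fun _ => 1, Nat.le_succ N, fun _ => zero_le_one, by simp,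
  fun g hg => by simpa [max_eq_right (sub_nonpos.2 (hg.bd N).2)] using hε.le⟩

lemma Q_step {c : ℝ} (hc : 0 ≤ c) (hQ : Q c) {ε : ℝ} (hε : 0 < ε) (N m : ℕ) :
    ∃ (M : ℕ) (μ : ℕ → ℝ), N ≤ M ∧ (∀ t, 0 ≤ μ t) ∧ ∑ t ∈ Finset.Ico N M, μ t = m ∧
      ∀ g, W g → ∑ t ∈ Finset.Ico N M, max (g t - c / 2) 0 * μ t ≤ 1 + m * ε := by
  induction m with
  | zero => exact ⟨N, 0, le_rfl, fun _ => le_rfl, by simp, fun g _ => by simp⟩
  | succ m ih =>
    obtain ⟨M, μ, h1, h2, h3, h4⟩ := ih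
    obtain ⟨M', μ', k1, k2, k3, k4⟩ := hQ (ε / (M + 1)) (by positivity) M
    have sp : ∀ u : ℕ → ℝ, ∑ t ∈ Finset.Ico N M', u t * (if t < M then μ t else μ' t) =
        ∑ t ∈ Finset.Ico N M, u t * μ t + ∑ t ∈ Finset.Ico M M', u t * μ' t := fun u => by
      rw [← Finset.sum_Ico_consecutive _ h1 k1]
      congr 1
      · exact Finset.sum_congr rfl fun t ht => by rw [if_pos (Finset.mem_Ico.1 ht).2]
      · exact Finset.sum_congr rfl fun t ht => by rw [if_neg (Finset.mem_Ico.1 ht).1.not_gt]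
    refine ⟨M', fun t => if t < M then μ t else μ' t, h1.trans k1, fun t => ?_, ?_, fun g hg => ?_⟩
    · beta_reduce
      split_ifs
      exacts [h2 t, k2 t]
    · have := sp fun _ => 1
      simp only [one_mul] at this
      rw [this, h3, k3]
      push_cast
      ring
    rw [sp]
    push_cast
    have z : ∀ r : ℝ, r = 0 → max (r - c / 2) 0 = 0 := fun r hr => max_eq_right (by linarith)
    by_cases hx : ∃ t, t < M ∧ g t ≠ 0
    · suffices ∑ t ∈ Finset.Ico M M', max (g t - c / 2) 0 * μ' t ≤ ε by linarith [h4 g hg]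
      obtain ⟨t0, ht0, hx⟩ := hx
      cases hg with
      | one k =>
        rw [Finset.sum_eq_zero fun t ht => by
          rw [z _ (Pi.single_eq_of_ne (fun e => hx (Pi.single_eq_of_ne (fun e' => by
            have := (Finset.mem_Ico.1 ht).1
            omega) _)) _), zero_mul]]
        exact hε.le
      | comb n g hW hd hN =>
        have hn : (n : ℝ) ≤ M + 1 := by
          obtain ⟨j, hj, h0⟩ := Finset.exists_ne_zero_of_sum_ne_zero (right_ne_zero_of_mul hx)
          have := hN j (Finset.mem_range.1 hj) t0 h0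
          exact_mod_cast (show n ≤ M + 1 by omega)
        calc _ ≤ ∑ t ∈ Finset.Ico M M', ∑ j ∈ Finset.range n, max (g j t - c) 0 * μ' t :=
              Finset.sum_le_sum fun t _ => by
                rw [← Finset.sum_mul]
                refine mul_le_mul_of_nonneg_right ?_ (k2 t)
                beta_reduce
                have p0 : ∀ j ∈ Finset.range n, 0 ≤ max (g j t - c) 0 := fun _ _ => le_max_right _ _
                rcases lone hd t with h' | ⟨i, hi, h'⟩
                · rw [z _ (by rw [h', mul_zero])]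
                  exact Finset.sum_nonneg p0
                · refine le_trans ?_ (Finset.single_le_sum p0 (Finset.mem_range.2 hi))
                  rw [h']
                  exact max_le (by linarith [le_max_left (g i t - c) 0, le_max_right (g i t - c) 0])
                    (le_max_right _ _)
          _ ≤ n * (ε / (M + 1)) := by
              rw [Finset.sum_comm]
              simpa using Finset.sum_le_card_nsmul _ _ _ fun j hj =>
                k4 _ (hW j (Finset.mem_range.1 hj))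
          _ ≤ ε := by
              rw [← mul_div_assoc, div_le_iff₀ (by positivity)]
              nlinarith
    · push Not at hx
      rw [Finset.sum_eq_zero fun t ht => by rw [z _ (hx t (Finset.mem_Ico.1 ht).2), zero_mul]]
      have : ∑ t ∈ Finset.Ico M M', max (g t - c / 2) 0 * μ' t ≤ ∑ t ∈ Finset.Ico M M', μ' t :=
        Finset.sum_le_sum fun t _ => mul_le_of_le_one_left (k2 t)
          (max_le (by linarith [(hg.bd t).2]) zero_le_one)
      have : (0 : ℝ) ≤ (m + 1) * ε := by positivity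
      linarith

lemma Q_half {c : ℝ} (hc : 0 ≤ c) (hQ : Q c) : Q (c / 2) := fun ε hε N => by
  obtain ⟨m, hm⟩ := exists_nat_gt (2 / ε)
  have hm0 : (0 : ℝ) < m := lt_trans (by positivity) hm
  obtain ⟨M, μ, h1, h2, h3, h4⟩ := Q_step hc hQ (half_pos hε) N m
  refine ⟨M, fun t => μ t / m, h1, fun t => div_nonneg (h2 t) hm0.le, ?_, fun g hg => ?_⟩
  · rw [← Finset.sum_div, h3, div_self hm0.ne']
  · simp only [← mul_div_assoc]
    rw [← Finset.sum_div, div_le_iff₀ hm0]
    rw [div_lt_iff₀ hε] at hm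
    linarith [h4 g hg]

lemma Ts.flat (h : Ts e f) {γ : ℝ} (hγ : 0 < γ) : ∃ (M : ℕ) (a : ℕ → ℝ),
    ∑ t ∈ Finset.range M, a t ^ 2 = 1 ∧ ‖V e id a (Finset.range M)‖ ^ 2 ≤ γ := by
  have hQ : ∀ d : ℕ, Q ((1 / 2) ^ d) := fun d => by
    induction d with
    | zero => simpa using Q_one
    | succ d ih =>
      rw [pow_succ, mul_one_div]
      exact Q_half (by positivity) ih
  obtain ⟨d, hd⟩ := exists_pow_lt_of_lt_one (half_pos hγ) (show (1 / 2 : ℝ) < 1 by norm_num)
  obtain ⟨M, μ, -, h2, h3, h4⟩ := hQ d _ (half_pos hγ) 0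
  rw [← Finset.range_eq_Ico] at h3 h4
  refine ⟨M, fun t => √(μ t), by simpa only [Real.sq_sqrt (h2 _)] using h3,
    h.hi Function.injective_id _ _ fun g hg => ?_⟩
  simp only [Real.sq_sqrt (h2 _), id]
  have : ∑ t ∈ Finset.range M, g t * μ t ≤ ∑ t ∈ Finset.range M,
      (max (g t - (1 / 2) ^ d) 0 * μ t + (1 / 2) ^ d * μ t) := Finset.sum_le_sum fun t _ => by
    nlinarith [le_max_left (g t - (1 / 2) ^ d) 0, h2 t]
  rw [Finset.sum_add_distrib, ← Finset.mul_sum, h3] at this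
  linarith [h4 g hg]

lemma signs (g : ℕ → ℝ) (s : Finset ℕ) (z : ℕ → ℕ → ℝ) (M : ℕ) : ∃ ε : ℕ → ℝ, (∀ i, |ε i| = 1) ∧
    ∑ t ∈ s, g t * ∑ i ∈ Finset.range M, z i t ^ 2 ≤
      ∑ t ∈ s, g t * (∑ i ∈ Finset.range M, ε i * z i t) ^ 2 := by
  induction M with
  | zero => exact ⟨1, by simp, by simp⟩
  | succ M ih =>
    obtain ⟨ε, h1, h2⟩ := ih
    obtain ⟨r, hr, hr'⟩ : ∃ r : ℝ, |r| = 1 ∧
        0 ≤ r * ∑ t ∈ s, g t * ((∑ i ∈ Finset.range M, ε i * z i t) * z M t) := by
      rcases le_total 0 (∑ t ∈ s, g t * ((∑ i ∈ Finset.range M, ε i * z i t) * z M t)) with h | h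
      · exact ⟨1, abs_one, by linarith⟩
      · exact ⟨-1, by simp, by linarith⟩
    have hr2 : r ^ 2 = 1 := by rw [← sq_abs, hr, one_pow]
    refine ⟨fun i => if i < M then ε i else r, fun i => by
      beta_reduce
      split_ifs
      exacts [h1 i, hr], ?_⟩
    have e1 : ∀ t, ∑ i ∈ Finset.range (M + 1), (if i < M then ε i else r) * z i t =
        ∑ i ∈ Finset.range M, ε i * z i t + r * z M t := fun t => by
      rw [Finset.sum_range_succ, if_neg (lt_irrefl M)]
      congr 1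
      exact Finset.sum_congr rfl fun i hi => by rw [if_pos (Finset.mem_range.1 hi)]
    simp only [e1, Finset.sum_range_succ (fun i => z i _ ^ 2)]
    have e2 : ∑ t ∈ s, g t * (∑ i ∈ Finset.range M, ε i * z i t + r * z M t) ^ 2 =
        ∑ t ∈ s, g t * (∑ i ∈ Finset.range M, ε i * z i t) ^ 2 +
        2 * (r * ∑ t ∈ s, g t * ((∑ i ∈ Finset.range M, ε i * z i t) * z M t)) +
        ∑ t ∈ s, g t * z M t ^ 2 := by
      simp only [Finset.mul_sum (s := s), ← Finset.sum_add_distrib]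
      exact Finset.sum_congr rfl fun t _ => by linear_combination g t * z M t ^ 2 * hr2
    simp only [mul_add (g _), Finset.sum_add_distrib]
    linarith

lemma Ts.low' (h : Ts e f) {ι : Type} [Fintype ι] [DecidableEq ι] (a : ℕ → ℝ) (s : Finset ℕ)
    (κ : ℕ → ι) (hs : ∀ t ∈ s, Fintype.card ι ≤ t) :
    ∑ l, ‖V e id a (s.filter fun t => κ t = l)‖ ^ 2 ≤ 2 * ‖V e id a s‖ ^ 2 := by
  have := h.low Function.injective_id a s (n := Fintype.card ι)
    (E := fun j => s.filter fun t => (Fintype.equivFin ι (κ t) : ℕ) = j)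
    ⟨fun i _ k hk => (hs k (Finset.mem_filter.1 hk).1).trans (Nat.le_succ k), fun i j hij _ k hk hk' =>
      hij.ne ((Finset.mem_filter.1 hk).2.symm.trans (Finset.mem_filter.1 hk').2)⟩
  rw [← Fin.sum_univ_eq_sum_range (fun j => ‖V e id a (s.filter fun t => id t ∈
    s.filter fun t => (Fintype.equivFin ι (κ t) : ℕ) = j)‖ ^ 2),
    ← (Fintype.equivFin ι).sum_comp] at this
  refine le_trans (le_of_eq (Finset.sum_congr rfl fun l _ => ?_)) this
  congr 3
  ext t
  simp [Fin.val_inj]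

lemma Ts.cot0 (h : Ts e f) (M : ℕ) (z : ℕ → ℕ → ℝ) (s : Finset ℕ)
    (hs : ∀ t ∈ s, (M + 1) ^ M ≤ t) {B : ℝ} (hB : ∀ ε : ℕ → ℝ, (∀ i, |ε i| = 1) →
      ‖V e id (fun t => ∑ i ∈ Finset.range M, ε i * z i t) s‖ ^ 2 ≤ B) :
    ∑ i ∈ Finset.range M, ‖V e id (z i) s‖ ^ 2 ≤ 4 * B := by
  set u : ℕ → ℝ := fun t => ∑ i ∈ Finset.range M, z i t ^ 2 with hu
  have u0 : ∀ t, 0 ≤ u t := fun t => by positivity
  have u1 : ∀ (i : Fin M) t, z i t ^ 2 ≤ u t := fun i t =>
    Finset.single_le_sum (f := fun i => z i t ^ 2) (fun _ _ => sq_nonneg _)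
      (Finset.mem_range.2 i.2)
  have w1 : ‖V e id (fun t => √(u t)) s‖ ^ 2 ≤ B := h.hi Function.injective_id _ _ fun g hg => by
    obtain ⟨ε, h1, h2⟩ := signs g s z M
    simp only [Real.sq_sqrt (u0 _), id]
    exact h2.trans ((h.lo Function.injective_id _ s hg).trans (hB ε h1))
  have kk : ∀ t (i : Fin M), ⌈M * (z i t ^ 2 / u t)⌉₊ < M + 1 := fun t i =>
    Nat.lt_succ_of_le (Nat.ceil_le.2 (mul_le_of_le_one_right (Nat.cast_nonneg _)
      (div_le_one_of_le₀ (u1 i t) (u0 t))))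
  set κ : ℕ → Fin M → Fin (M + 1) := fun t i => ⟨_, kk t i⟩ with hκ
  have w2 := h.low' (fun t => √(u t)) s κ (by simpa using hs)
  have w3 : ∀ i : Fin M, ‖V e id (z i) s‖ ^ 2 ≤ ∑ l : Fin M → Fin (M + 1), ((l i : ℕ) / M : ℝ) *
      ‖V e id (fun t => √(u t)) (s.filter fun t => κ t = l)‖ ^ 2 := fun i =>
    h.hi Function.injective_id _ _ fun g hg => by
      rw [← Finset.sum_fiberwise s κ]
      refine Finset.sum_le_sum fun l _ => (h.lo Function.injective_id _ _ hg).trans
        (h.dom2 strictMono_id _ _ _ _ subset_rfl (by positivity) fun t ht => ?_)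
      have hM : (0 : ℝ) < M := by exact_mod_cast i.pos
      rw [← (Finset.mem_filter.1 ht).2, Real.sq_sqrt (u0 t)]
      rcases (u0 t).eq_or_lt with h0 | h0
      · rw [← h0, mul_zero, h0]
        exact u1 i t
      · rw [← div_le_iff₀ h0, le_div_iff₀' hM]
        exact Nat.le_ceil _
  rw [← Fin.sum_univ_eq_sum_range (fun i => ‖V e id (z i) s‖ ^ 2)]
  refine (Finset.sum_le_sum fun i _ => w3 i).trans ?_
  rw [Finset.sum_comm]
  refine (Finset.sum_le_sum (g := fun l => 2 * ‖V e id (fun t => √(u t))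
    (s.filter fun t => κ t = l)‖ ^ 2) fun l _ => ?_).trans (by rw [← Finset.mul_sum]; linarith)
  rw [← Finset.sum_mul]
  rcases (s.filter fun t => κ t = l).eq_empty_or_nonempty with h0 | ⟨t, ht⟩
  · simp [h0, V]
  refine mul_le_mul_of_nonneg_right ?_ (sq_nonneg _)
  rw [← (Finset.mem_filter.1 ht).2]
  calc _ ≤ ∑ i : Fin M, (z i t ^ 2 / u t + 1 / M) := Finset.sum_le_sum fun i _ => by
        have hM : (0 : ℝ) < M := by exact_mod_cast i.pos
        rw [div_le_iff₀ hM, add_mul, one_div_mul_cancel hM.ne', mul_comm]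
        exact (Nat.ceil_lt_add_one (mul_nonneg hM.le (div_nonneg (sq_nonneg _) (u0 t)))).le
    _ ≤ 2 := by
        rw [Finset.sum_add_distrib, ← Finset.sum_div,
          Fin.sum_univ_eq_sum_range (fun i => z i t ^ 2), Finset.sum_const, Finset.card_univ,
          Fintype.card_fin, nsmul_eq_mul, mul_one_div]
        linarith [div_self_le_one (u t), div_self_le_one (M : ℝ)]

lemma Ts.cot (h : Ts e f) (M : ℕ) (y : ℕ → X) (hy : ∀ i t, t < (M + 1) ^ M → f t (y i) = 0)
    {B : ℝ} (hB : ∀ ε : ℕ → ℝ, (∀ i, |ε i| = 1) → ‖∑ i ∈ Finset.range M, ε i • y i‖ ^ 2 ≤ B) :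
    ∑ i ∈ Finset.range M, ‖y i‖ ^ 2 ≤ 4 * B := by
  refine le_of_tendsto' (tendsto_finsetSum _ fun i _ => (h.tend (y i)).norm.pow 2) fun N => ?_
  have := h.cot0 M (fun i t => f t (y i)) ((Finset.range N).filter fun t => (M + 1) ^ M ≤ t)
    (fun t ht => (Finset.mem_filter.1 ht).2) fun ε hε => le_trans (by
      have := h.supp (∑ i ∈ Finset.range M, ε i • y i)
        ((Finset.range N).filter fun t => (M + 1) ^ M ≤ t)
      simp only [map_sum, map_smul, smul_eq_mul] at this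
      exact pow_le_pow_left₀ (norm_nonneg _) this 2) (hB ε hε)
  refine le_trans (le_of_eq (Finset.sum_congr rfl fun i _ => ?_)) this
  congr 2
  refine (Finset.sum_subset (Finset.filter_subset _ _) fun t ht ht' => ?_).symm
  rw [hy i t (not_le.1 fun h' => ht' (Finset.mem_filter.2 ⟨ht, h'⟩)), zero_smul]

theorem Ts.nonunif (h : Ts e f) {K : ℝ} (hK : 0 ≤ K) : ∃ A : X →L[ℝ] X, (∀ k, f k (A (e k)) = 1) ∧
    ∀ R S : X →L[ℝ] X, S ∘L A ∘L R = ContinuousLinearMap.id ℝ X → K < ‖R‖ * ‖S‖ := by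
  obtain ⟨M, a, ha, ha'⟩ := h.flat (γ := 1 / (16 * K ^ 2 + 4 * K + 3)) (by positivity)
  set γ := 1 / (16 * K ^ 2 + 4 * K + 3) with hγ
  set N := (M + 1) ^ M with hN
  set P : X →L[ℝ] X := 1 - ∑ k ∈ Finset.range N, (f k).smulRight (e k) with hP
  have P0 : ∀ x, P x = x - V e id (fun k => f k x) (Finset.range N) := fun x => by simp [hP, V]
  have P1 : ∀ x, ‖P x‖ ≤ 2 * ‖x‖ := fun x => by
    rw [P0]
    linarith [norm_sub_le x (V e id (fun k => f k x) (Finset.range N)), h.supp x (Finset.range N)]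
  have P2 : ∀ t x, f t (P x) = if t < N then 0 else f t x := fun t x => by
    have := h.f_V Function.injective_id (fun k => f k x) (Finset.range N) t
    rw [P0, map_sub]
    simp only [id, Finset.mem_range] at this
    rw [this]
    split_ifs <;> simp
  set φ : X →L[ℝ] ℝ := ∑ k ∈ Finset.range N, f k with hφ
  refine ⟨φ.smulRight (∑ k ∈ Finset.range N, e k) + P, fun k => ?_, fun R S hRS => ?_⟩
  · rw [_root_.add_apply, map_add, P2]
    by_cases hk : k < N <;> simp [hφ, h.bio, hk]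
  by_contra hc
  push Not at hc
  set v := S (∑ k ∈ Finset.range N, e k) with hv
  have e1 : ∀ x, φ (R x) • v + S (P (R x)) = x := fun x => by
    have := congrArg (fun T : X →L[ℝ] X => T x) hRS
    simpa [hv] using this
  have PR : ∀ x, ‖P (R x)‖ ≤ 2 * ‖R‖ * ‖x‖ := fun x => by linarith [P1 (R x), R.le_opNorm x]
  have e2 : ∀ x, |φ (R x)| * ‖v‖ ≤ (1 + 2 * K) * ‖x‖ := fun x => by
    have h1 := norm_sub_le x (S (P (R x)))
    rw [← eq_sub_of_add_eq (e1 x), norm_smul, Real.norm_eq_abs] at h1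
    have h2 := (S.le_opNorm _).trans (mul_le_mul_of_nonneg_left (PR x) (norm_nonneg S))
    nlinarith [mul_le_mul_of_nonneg_right hc (norm_nonneg x)]
  have a1 : ∀ i ∈ Finset.range M, a i ^ 2 ≤ γ := fun i hi =>
    (h.coef Function.injective_id a hi).trans ha'
  have e3 : ∑ i ∈ Finset.range M, a i ^ 2 * (φ (R (e i)) * f i v) ≤ (1 + 2 * K) * γ := by
    by_cases h0 : v = 0
    · simp only [h0, map_zero, mul_zero, Finset.sum_const_zero]
      positivity
    have h1 := e2 (V e id (fun i => a i ^ 2 * f i v) (Finset.range M))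
    have h2 : ‖V e id (fun i => a i ^ 2 * f i v) (Finset.range M)‖ ≤ γ * ‖v‖ := by
      have := h.supp (γ • v) (Finset.range M)
      rw [norm_smul, Real.norm_of_nonneg (by positivity)] at this
      refine (h.dom strictMono_id _ _ _ _ subset_rfl fun i hi => ?_).trans this
      rw [map_smul, smul_eq_mul, abs_mul, abs_mul, abs_of_nonneg (sq_nonneg _),
        abs_of_nonneg (show 0 ≤ γ by positivity)]
      exact mul_le_mul_of_nonneg_right (a1 i hi) (abs_nonneg _)
    have h3 := h1.trans (mul_le_mul_of_nonneg_left h2 (by positivity))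
    rw [← mul_assoc] at h3
    refine le_trans (le_of_eq ?_) ((le_abs_self _).trans
      (le_of_mul_le_mul_right h3 (norm_pos_iff.2 h0)))
    simp only [V, map_sum, map_smul, smul_eq_mul, id]
    exact Finset.sum_congr rfl fun i _ => by ring
  have e4 := h.cot M (fun i => a i • P (R (e i))) (fun i t ht => by
    rw [map_smul, P2, if_pos ht, smul_zero]) (B := (2 * ‖R‖) ^ 2 * γ) fun ε hε => by
      rw [show ∑ i ∈ Finset.range M, ε i • a i • P (R (e i)) =
        P (R (V e id (fun i => ε i * a i) (Finset.range M))) by simp [V, mul_smul]]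
      refine (pow_le_pow_left₀ (norm_nonneg _) (PR _) 2).trans ?_
      rw [mul_pow]
      refine mul_le_mul_of_nonneg_left (le_trans (pow_le_pow_left₀ (norm_nonneg _)
        (h.dom strictMono_id _ a _ _ subset_rfl fun i _ => ?_) 2) ha') (sq_nonneg _)
      rw [abs_mul, hε, one_mul]
  have e5 : ∀ i ∈ Finset.range M, a i ^ 2 - 2 * (a i ^ 2 * (φ (R (e i)) * f i v)) ≤
      ‖S‖ ^ 2 * ‖a i • P (R (e i))‖ ^ 2 := fun i _ => by
    have h1 := congrArg (f i) (e1 (e i))
    rw [map_add, map_smul, h.bio, if_pos rfl, smul_eq_mul] at h1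
    have h2 := (h.f_sq i _).trans (pow_le_pow_left₀ (norm_nonneg _)
      (S.le_opNorm (a i • P (R (e i)))) 2)
    rw [map_smul, map_smul, smul_eq_mul, eq_sub_of_add_eq' h1, mul_pow ‖S‖] at h2
    nlinarith [sq_nonneg (a i * (φ (R (e i)) * f i v))]
  have e6 := Finset.sum_le_sum e5
  rw [Finset.sum_sub_distrib, ← Finset.mul_sum, ← Finset.mul_sum, ha] at e6
  have e7 := mul_le_mul_of_nonneg_left e4 (sq_nonneg ‖S‖)
  have e8 := mul_le_mul_of_nonneg_right (pow_le_pow_left₀ (by positivity) hc 2)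
    (show 0 ≤ γ by positivity)
  have e9 : (16 * K ^ 2 + 4 * K + 3) * γ = 1 := mul_one_div_cancel (by positivity)
  have e10 : 0 < γ := by positivity
  nlinarith

end Pool.Agent.H.MP_15e1ec_an
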